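import Pool.Agent.Q18.TwistL
import Pool.Agent.Q18.Count

/-!
# No positive proportion of non-vanishing quadratic twists for odd Hecke–Maass forms of level one
-/

set_option autoImplicit false

open Filter Topology

namespace Pool.Agent.Results.MP_5f72fe_nt.NoPositiveProportion

open Pool.Agent.Q18

/-- There is a cuspidal representation `π'` of `PGL(2)` over `ℚ` (generated by an odd Hecke–Maass
cusp form of level one) such that for no `c > 0` one has `N_π'(x) ≥ c x` for all large `x`;
indeed all its quadratic twists have central value zero, and `liminf N_π'(x)/x = 0`. -/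
theorem result : ∃ π : HeckeMaassForm, π.IsOdd ∧
    (∀ E : QuadExt, ∃ L : ℂ → ℂ, IsTwistedL π E.char L ∧ L (1 / 2) = 0 ∧
      ∀ L' : ℂ → ℂ, IsTwistedL π E.char L' → L' = L) ∧
    (∀ c : ℝ, 0 < c → ¬ ∀ᶠ x : ℝ in atTop, c * x ≤ (countNonvanishing π x : ℝ)) ∧
    liminf (fun x : ℝ => (countNonvanishing π x : ℝ) / x) atTop = 0 := by
  obtain ⟨π, hodd⟩ := exists_odd
  have hE : ∀ E : QuadExt, ∃ L : ℂ → ℂ, IsTwistedL π E.char L ∧ L (1 / 2) = 0 := by
    intro E
    have : NeZero E.absDisc := ⟨E.pos.ne'⟩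
    exact twist_L π hodd E.char E.primitive E.quadratic
  have hN : ∀ x : ℝ, countNonvanishing π x = 0 := by
    intro x
    have : {E : QuadExt | (E.absDisc : ℝ) < x ∧ ∃ L : ℂ → ℂ, IsTwistedL π E.char L ∧ L (1 / 2) ≠ 0} = ∅ := by
      ext E
      simp only [Set.mem_ofPred_eq, Set.mem_empty_iff_false, iff_false]
      rintro ⟨-, L, hL, hne⟩
      obtain ⟨L', hL', h0⟩ := hE E
      rw [hL.unique hL'] at hne
      exact hne h0
    rw [countNonvanishing, this, Set.ncard_empty]
  refine ⟨π, hodd, fun E => ?_, fun c hc h => ?_, ?_⟩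
  · obtain ⟨L, hL, h0⟩ := hE E
    exact ⟨L, hL, h0, fun L' hL' => hL'.unique hL⟩
  · obtain ⟨x, hx, hx1⟩ := (h.and (eventually_gt_atTop (0 : ℝ))).exists
    rw [hN] at hx
    have : 0 < c * x := mul_pos hc hx1
    norm_num at hx
    linarith
  · simp only [hN, Nat.cast_zero, zero_div]
    exact liminf_const 0

end Pool.Agent.Results.MP_5f72fe_nt.NoPositiveProportion
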